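import Pool.Agent.H99.FI.Defs

/-!
# Walks and Kempe chains: basic lemmas (job B of MP_bdd10f_pr)
-/

set_option autoImplicit false

namespace FI

open Finset Function
open scoped Classical

variable {V : Type*} {d : ℕ}

/-! ### walks -/

theorem Wk.append {N : Adj V d} {a c f : Dart V d} {p q : List (Fin d)}
    (h : Wk N a p c) (h' : Wk N c q f) : Wk N a (p ++ q) f := by
  induction h with
  | nil => simpa using h'
  | cons hi hN _ ih => exact Wk.cons hi hN (ih h')

theorem Wk.single {N : Adj V d} {a c : Dart V d} {i : Fin d} (hi : i ≠ a.2)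
    (hN : N (a.1, i) = some c) : Wk N a [i] c := Wk.cons hi hN (Wk.nil c)

theorem Wk.snoc_inv {N : Adj V d} {a f : Dart V d} {p : List (Fin d)}
    (h : Wk N a p f) : (p = [] ∧ f = a) ∨
      ∃ q g i, Wk N a q g ∧ i ≠ g.2 ∧ N (g.1, i) = some f ∧ p = q ++ [i] := by
  induction h with
  | nil => exact Or.inl ⟨rfl, rfl⟩
  | @cons a c f i p hi hN hw ih =>
    rcases ih with ⟨rfl, rfl⟩ | ⟨q, g, j, hq, hj, hN', rfl⟩
    · exact Or.inr ⟨[], a, i, Wk.nil _, hi, hN, rfl⟩
    · exact Or.inr ⟨i :: q, g, j, Wk.cons hi hN hq, hj, hN', rfl⟩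

theorem Wk.mono {N N' : Adj V d} (hNN : ∀ a c, N a = some c → N' a = some c)
    {a f : Dart V d} {p : List (Fin d)} (h : Wk N a p f) : Wk N' a p f := by
  induction h with
  | nil => exact Wk.nil _
  | cons hi hN _ ih => exact Wk.cons hi (hNN _ _ hN) ih

theorem Forest.head {N : Adj V d} (hF : Forest N) {f g g' : Dart V d} {i i' : Fin d}
    {u u' : List (Fin d)} (h : Wk N f (i :: u) g) (h' : Wk N f (i' :: u') g')
    (e : g.1 = g'.1) : i = i' :=
  (List.cons.inj (hF.uniq _ _ _ _ _ h h' e)).1

/-! ### transpositions -/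

theorem sw_ne {k l c : Fin d} (h : k ≠ l) (hc : c = k ∨ c = l) : Equiv.swap k l c ≠ c := by
  rcases hc with rfl | rfl
  · rw [Equiv.swap_apply_left]; exact h.symm
  · rw [Equiv.swap_apply_right]; exact h

theorem sw_mem {k l c : Fin d} (hc : c = k ∨ c = l) :
    Equiv.swap k l c = k ∨ Equiv.swap k l c = l := by
  rcases hc with rfl | rfl
  · rw [Equiv.swap_apply_left]; exact Or.inr rfl
  · rw [Equiv.swap_apply_right]; exact Or.inl rfl

theorem sw_cases {k l c e : Fin d} (hc : c = k ∨ c = l) (he : e = k ∨ e = l) :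
    e = c ∨ e = Equiv.swap k l c := by
  rcases hc with rfl | rfl <;> rcases he with rfl | rfl
  · exact Or.inl rfl
  · exact Or.inr (by rw [Equiv.swap_apply_left])
  · exact Or.inr (by rw [Equiv.swap_apply_right])
  · exact Or.inl rfl

theorem sw_other {k l c : Fin d} (hc : ¬ (c = k ∨ c = l)) : Equiv.swap k l c = c := by
  push Not at hc
  exact Equiv.swap_apply_of_ne_of_ne hc.1 hc.2

/-! ### positions -/

/-- leaving dart of the chain with pair `τ` at the arrival dart `a` -/
def lv (x : St V d) (τ : Equiv.Perm (Fin d)) (a : Dart V d) : Dart V d :=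
  dt x a.1 (τ (col x a))

theorem lv_def (x : St V d) (τ : Equiv.Perm (Fin d)) (a : Dart V d) :
    lv x τ a = dt x a.1 (τ (col x a)) := rfl

@[simp] theorem dt_fst (x : St V d) (v : V) (k : Fin d) : (dt x v k).1 = v := rfl

@[simp] theorem lv_fst (x : St V d) (τ : Equiv.Perm (Fin d)) (a : Dart V d) :
    (lv x τ a).1 = a.1 := rfl

@[simp] theorem col_dt (x : St V d) (v : V) (k : Fin d) : col x (dt x v k) = k := by
  simp [col, dt]

@[simp] theorem col_lv (x : St V d) (τ : Equiv.Perm (Fin d)) (a : Dart V d) :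
    col x (lv x τ a) = τ (col x a) := by
  simp [lv]

theorem dt_col (x : St V d) (a : Dart V d) : dt x a.1 (col x a) = a := by
  simp [col, dt]

/-- a dart is determined by its vertex and its colour -/
theorem dart_eq (x : St V d) {u w : Dart V d} (h1 : u.1 = w.1) (h2 : col x u = col x w) :
    u = w := by
  rw [← dt_col x u, ← dt_col x w, h1, h2]

theorem dart_eq_dt (x : St V d) {u : Dart V d} {v : V} {k : Fin d} (h1 : u.1 = v)
    (h2 : col x u = k) : u = dt x v k := by
  rw [← dt_col x u, h1, h2]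

theorem dt_snd_inj (x : St V d) {v : V} {k l : Fin d} (h : (dt x v k).2 = (dt x v l).2) :
    k = l := by
  simpa [dt] using h

theorem dt_snd_ne (x : St V d) {a : Dart V d} {k : Fin d} (h : k ≠ col x a) :
    (dt x a.1 k).2 ≠ a.2 := by
  intro h'
  apply h
  have : dt x a.1 k = a := Prod.ext rfl h'
  rw [← this, col_dt]

theorem lv_snd_ne (x : St V d) {τ : Equiv.Perm (Fin d)} {a : Dart V d}
    (h : τ (col x a) ≠ col x a) : (lv x τ a).2 ≠ a.2 := dt_snd_ne x h

@[simp] theorem pos_zero (N : Adj V d) (x : St V d) (τ : Equiv.Perm (Fin d)) (a : Dart V d) :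
    pos N x τ a 0 = some a := rfl

theorem pos_succ (N : Adj V d) (x : St V d) (τ : Equiv.Perm (Fin d)) (a : Dart V d) (n : ℕ) :
    pos N x τ a (n + 1) = (pos N x τ a n).bind (fun f => N (lv x τ f)) := rfl

theorem pos_succ_iff {N : Adj V d} {x : St V d} {τ : Equiv.Perm (Fin d)} {a g : Dart V d}
    {n : ℕ} : pos N x τ a (n + 1) = some g ↔
      ∃ f, pos N x τ a n = some f ∧ N (lv x τ f) = some g := by
  rw [pos_succ, Option.bind_eq_some_iff]

theorem pos_add {N : Adj V d} {x : St V d} {τ : Equiv.Perm (Fin d)} {a f : Dart V d} {i : ℕ}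
    (h : pos N x τ a i = some f) (m : ℕ) : pos N x τ a (i + m) = pos N x τ f m := by
  induction m with
  | zero => simpa using h
  | succ m ih => rw [← add_assoc, pos_succ, pos_succ, ih]

theorem pos_some_of_le {N : Adj V d} {x : St V d} {τ : Equiv.Perm (Fin d)} {a f : Dart V d}
    {i n : ℕ} (hin : i ≤ n) (h : pos N x τ a n = some f) :
    ∃ g, pos N x τ a i = some g ∧ pos N x τ g (n - i) = some f := by
  obtain ⟨m, rfl⟩ := Nat.exists_eq_add_of_le hin
  clear hin
  rw [Nat.add_sub_cancel_left]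
  induction m generalizing f with
  | zero => exact ⟨f, h, rfl⟩
  | succ m ih =>
    rw [← add_assoc, pos_succ_iff] at h
    obtain ⟨f', h1, h2⟩ := h
    obtain ⟨g, hg, hg'⟩ := ih h1
    exact ⟨g, hg, by rw [pos_succ_iff]; exact ⟨f', hg', h2⟩⟩

theorem lv_congr {x y : St V d} {τ : Equiv.Perm (Fin d)} {f : Dart V d}
    (h : y f.1 = x f.1 ∨ y f.1 = τ * x f.1) : lv y τ f = lv x τ f := by
  rcases h with h | h
  · simp [lv, dt, col, h]
  · simp only [lv, dt, col, h, Equiv.Perm.mul_apply]
    refine Prod.ext rfl ?_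
    change (x f.1).symm (τ.symm (τ (τ ((x f.1) f.2)))) = _
    rw [Equiv.symm_apply_apply]

theorem pos_congr {N : Adj V d} {x y : St V d} {τ : Equiv.Perm (Fin d)} {a : Dart V d} {n : ℕ}
    (h : ∀ i < n, ∀ f, pos N x τ a i = some f → y f.1 = x f.1 ∨ y f.1 = τ * x f.1) :
    pos N y τ a n = pos N x τ a n := by
  induction n with
  | zero => rfl
  | succ n ih =>
    rw [pos_succ, pos_succ, ih (fun i hi => h i (Nat.lt_succ_of_lt hi))]
    cases hp : pos N x τ a n with
    | none => rfl
    | some f =>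
      simp only [Option.bind_some]
      rw [lv_congr (h n (Nat.lt_succ_self n) f hp)]

theorem onCh_congr {N : Adj V d} {x y : St V d} {τ : Equiv.Perm (Fin d)} {a : Dart V d}
    (h : ∀ i f, pos N x τ a i = some f → y f.1 = x f.1 ∨ y f.1 = τ * x f.1) (v : V) :
    onCh N y τ a v ↔ onCh N x τ a v := by
  unfold onCh
  have : ∀ n, pos N y τ a n = pos N x τ a n := fun n => pos_congr fun i _ f => h i f
  simp only [this]

theorem pos_col {N : Adj V d} {x : St V d} (hx : Cons N x) {k l : Fin d} {a : Dart V d}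
    (ha : col x a = k ∨ col x a = l) {n : ℕ} {f : Dart V d}
    (h : pos N x (Equiv.swap k l) a n = some f) : col x f = k ∨ col x f = l := by
  induction n generalizing f with
  | zero => rw [pos_zero, Option.some_inj] at h; rwa [← h]
  | succ n ih =>
    obtain ⟨g, hg, hgf⟩ := pos_succ_iff.1 h
    rw [← hx _ _ hgf, col_lv]
    exact sw_mem (ih hg)

theorem pos_wk {N : Adj V d} {x : St V d} (hx : Cons N x) {k l : Fin d} (hkl : k ≠ l)
    {a : Dart V d} (ha : col x a = k ∨ col x a = l) {n : ℕ} {f : Dart V d}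
    (h : pos N x (Equiv.swap k l) a n = some f) :
    ∃ w, w.length = n ∧ Wk N a w f ∧
      (n ≠ 0 → ∃ u, w = (lv x (Equiv.swap k l) a).2 :: u) := by
  induction n generalizing f with
  | zero =>
    rw [pos_zero, Option.some_inj] at h
    subst h
    exact ⟨[], rfl, Wk.nil _, fun h => (h rfl).elim⟩
  | succ n ih =>
    obtain ⟨g, hg, hgf⟩ := pos_succ_iff.1 h
    obtain ⟨w, hw, hwk, hw'⟩ := ih hg
    have hne : (lv x (Equiv.swap k l) g).2 ≠ g.2 :=
      lv_snd_ne x (sw_ne hkl (pos_col hx ha hg))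
    refine ⟨w ++ [(lv x (Equiv.swap k l) g).2], by simp [hw],
      hwk.append (Wk.single hne hgf), fun _ => ?_⟩
    rcases Nat.eq_zero_or_pos n with rfl | hn
    · rw [pos_zero, Option.some_inj] at hg
      subst hg
      rw [List.length_eq_zero_iff.1 hw]
      exact ⟨[], rfl⟩
    · obtain ⟨u, rfl⟩ := hw' hn.ne'
      exact ⟨u ++ [(lv x (Equiv.swap k l) g).2], rfl⟩

/-- neighbours of a chain vertex through darts of one of the two colours -/
theorem chain_nb {N : Adj V d} (hN : ∀ a b, N a = some b → N b = some a) {x : St V d}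
    (hx : Cons N x) {k l : Fin d} {a : Dart V d}
    (ha : col x a = k ∨ col x a = l) {n : ℕ} {f : Dart V d}
    (h : pos N x (Equiv.swap k l) a n = some f) {u w : Dart V d} (huw : N u = some w)
    (hu : u.1 = f.1) (hc : col x u = k ∨ col x u = l) :
    (u = lv x (Equiv.swap k l) f ∧ pos N x (Equiv.swap k l) a (n + 1) = some w) ∨
    (n = 0 ∧ u = a) ∨
    (∃ m g, n = m + 1 ∧ pos N x (Equiv.swap k l) a m = some g ∧
      w = lv x (Equiv.swap k l) g ∧ u = f) := by
  rcases sw_cases (pos_col hx ha h) hc with h1 | h1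
  · have huf : u = f := dart_eq x hu h1
    cases n with
    | zero =>
      rw [pos_zero, Option.some_inj] at h
      exact Or.inr (Or.inl ⟨rfl, by rw [huf, h]⟩)
    | succ m =>
      obtain ⟨g, hg, hgf⟩ := pos_succ_iff.1 h
      refine Or.inr (Or.inr ⟨m, g, rfl, hg, ?_, huf⟩)
      have := hN _ _ hgf
      rw [← huf, huw, Option.some_inj] at this
      exact this
  · have hul : u = lv x (Equiv.swap k l) f := dart_eq_dt x hu h1
    refine Or.inl ⟨hul, pos_succ_iff.2 ⟨f, h, by rw [← hul]; exact huw⟩⟩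

/-- closure of a chain under edges of the two colours, except at its origin -/
theorem onCh_nb {N : Adj V d} (hN : ∀ a b, N a = some b → N b = some a) {x : St V d}
    (hx : Cons N x) {k l : Fin d} {a : Dart V d}
    (ha : col x a = k ∨ col x a = l) {u w : Dart V d} (huw : N u = some w) (hua : u ≠ a)
    (hc : col x u = k ∨ col x u = l) (h : onCh N x (Equiv.swap k l) a u.1) :
    onCh N x (Equiv.swap k l) a w.1 := by
  obtain ⟨n, f, hf, hfu⟩ := h
  rcases chain_nb hN hx ha hf huw hfu.symm hc with ⟨_, h1⟩ | ⟨_, h1⟩ | ⟨m, g, _, h1, h2, _⟩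
  · exact ⟨n + 1, w, h1, rfl⟩
  · exact (hua h1).elim
  · exact ⟨m, g, h1, by rw [h2, lv_fst]⟩

/-! ### the flip of a whole chain -/

theorem flip_of_on {N : Adj V d} {x : St V d} {τ : Equiv.Perm (Fin d)} {a : Dart V d} {v : V}
    (h : onCh N x τ a v) : flip N x τ a v = τ * x v := by simp [flip, h]

theorem flip_of_not {N : Adj V d} {x : St V d} {τ : Equiv.Perm (Fin d)} {a : Dart V d} {v : V}
    (h : ¬ onCh N x τ a v) : flip N x τ a v = x v := by simp [flip, h]

theorem flip_at {N : Adj V d} {x : St V d} {τ : Equiv.Perm (Fin d)} {a f : Dart V d} {n : ℕ}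
    (h : pos N x τ a n = some f) : flip N x τ a f.1 = τ * x f.1 := flip_of_on ⟨n, f, h, rfl⟩

theorem flip_pos (N : Adj V d) (x : St V d) (τ : Equiv.Perm (Fin d)) (a : Dart V d) (n : ℕ) :
    pos N (flip N x τ a) τ a n = pos N x τ a n :=
  pos_congr fun _ _ _ hf => Or.inr (flip_at hf)

theorem flip_onCh (N : Adj V d) (x : St V d) (τ : Equiv.Perm (Fin d)) (a : Dart V d) (v : V) :
    onCh N (flip N x τ a) τ a v ↔ onCh N x τ a v :=
  onCh_congr (fun _ _ hf => Or.inr (flip_at hf)) v

theorem flip_flip (N : Adj V d) (x : St V d) (k l : Fin d) (a : Dart V d) :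
    flip N (flip N x (Equiv.swap k l) a) (Equiv.swap k l) a = x := by
  funext v
  by_cases h : onCh N x (Equiv.swap k l) a v
  · rw [flip_of_on ((flip_onCh ..).2 h), flip_of_on h, ← mul_assoc, Equiv.swap_mul_self, one_mul]
  · rw [flip_of_not (fun h' => h ((flip_onCh ..).1 h')), flip_of_not h]

theorem col_flip_origin (N : Adj V d) (x : St V d) (τ : Equiv.Perm (Fin d)) (a : Dart V d) :
    col (flip N x τ a) a = τ (col x a) := by
  have : flip N x τ a a.1 = τ * x a.1 := flip_at (n := 0) rfl
  simp [col, this]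

theorem flip_cons {N : Adj V d} (hN : ∀ a b, N a = some b → N b = some a) {x : St V d}
    (hx : Cons N x) {k l : Fin d} {a : Dart V d} (hNa : N a = none)
    (ha : col x a = k ∨ col x a = l) : Cons N (flip N x (Equiv.swap k l) a) := by
  intro u w huw
  have hwu := hN _ _ huw
  have hua : u ≠ a := by rintro rfl; rw [hNa] at huw; cases huw
  have hwa : w ≠ a := by rintro rfl; rw [hNa] at hwu; cases hwu
  have huw' := hx _ _ huw
  have h1 := onCh_nb hN hx ha huw hua
  have h2 := onCh_nb hN hx ha hwu hwa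
  rw [← huw'] at h2
  by_cases hc : col x u = k ∨ col x u = l
  · by_cases hon : onCh N x (Equiv.swap k l) a u.1
    · have hon' := h1 hc hon
      simp only [col, flip_of_on hon, flip_of_on hon', Equiv.Perm.mul_apply]
      exact congrArg _ huw'
    · have hon' : ¬ onCh N x (Equiv.swap k l) a w.1 := fun h => hon (h2 hc h)
      simp only [col, flip_of_not hon, flip_of_not hon']
      exact huw'
  · have e1 : col (flip N x (Equiv.swap k l) a) u = col x u := by
      by_cases hon : onCh N x (Equiv.swap k l) a u.1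
      · simp only [col, flip_of_on hon, Equiv.Perm.mul_apply]
        exact sw_other hc
      · simp only [col, flip_of_not hon]
    have e2 : col (flip N x (Equiv.swap k l) a) w = col x w := by
      by_cases hon : onCh N x (Equiv.swap k l) a w.1
      · simp only [col, flip_of_on hon, Equiv.Perm.mul_apply]
        rw [huw'] at hc
        exact sw_other hc
      · simp only [col, flip_of_not hon]
    rw [e1, e2, huw']

end FI
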