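import Pool.Agent.H99.FI.Exact.Own

/-!
# Locality, components, and preservation of consistency (job B of MP_bdd10f_pr)
-/

set_option autoImplicit false

namespace FI

open Finset Function
open scoped Classical

variable {V : Type*} {d : ℕ}

/-! ### closed sets of vertices -/

theorem pos_closed {N : Adj V d} {S : V → Prop}
    (hS : ∀ u w, N u = some w → S u.1 → S w.1) {x : St V d} {τ : Equiv.Perm (Fin d)}
    {c g : Dart V d} {n : ℕ} (hc : S c.1) (h : pos N x τ c n = some g) : S g.1 := by
  induction n generalizing g with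
  | zero => rw [pos_zero, Option.some_inj] at h; rwa [← h]
  | succ n ih =>
    obtain ⟨g', h1, h2⟩ := pos_succ_iff.1 h
    exact hS _ _ h2 (show S g'.1 from ih h1)

theorem onCh_closed {N : Adj V d} {S : V → Prop}
    (hS : ∀ u w, N u = some w → S u.1 → S w.1) {x : St V d} {τ : Equiv.Perm (Fin d)}
    {c : Dart V d} {v : V} (hc : S c.1) (h : onCh N x τ c v) : S v := by
  obtain ⟨n, g, hg, rfl⟩ := h
  exact pos_closed hS hc hg

theorem flip_off {N : Adj V d} {S : V → Prop}
    (hS : ∀ u w, N u = some w → S u.1 → S w.1) {x : St V d} {τ : Equiv.Perm (Fin d)}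
    {c : Dart V d} {v : V} (hc : S c.1) (hv : ¬ S v) : flip N x τ c v = x v :=
  flip_of_not fun h => hv (onCh_closed hS hc h)

theorem phi_off {N : Adj V d} {S : V → Prop}
    (hS : ∀ u w, N u = some w → S u.1 → S w.1) {x : St V d} {τ : Equiv.Perm (Fin d)}
    {b : Fin d} {a : Dart V d} {n : ℕ} {v : V} (ha : S a.1) (hv : ¬ S v) :
    phi N x τ b a n v = x v := by
  cases hf : pos N x τ a n with
  | none => unfold phi; rw [hf]
  | some f =>
    have hSf : S f.1 := pos_closed hS ha hf
    rw [phi_apply hf rfl rfl, if_neg (fun e : v = f.1 => hv (by rw [e]; exact hSf)), if_neg, if_neg, if_neg]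
    · rintro ⟨c, h1, h2⟩
      exact hv (onCh_closed hS (hS _ _ h1 hSf) h2)
    · rintro ⟨c, h1, h2⟩
      exact hv (onCh_closed hS (hS _ _ h1 hSf) h2)
    · rintro ⟨i, g, -, hg, rfl⟩
      exact hv (pos_closed hS ha hg)

/-! ### agreement on a closed set -/

section Agree

variable {N : Adj V d} {S : V → Prop} {x y : St V d}

theorem pos_agree (hS : ∀ u w, N u = some w → S u.1 → S w.1) (hxy : ∀ v, S v → y v = x v)
    {τ : Equiv.Perm (Fin d)} {c : Dart V d} (hc : S c.1) (n : ℕ) :
    pos N y τ c n = pos N x τ c n :=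
  pos_congr fun _ _ _ hg => Or.inl (hxy _ (pos_closed hS hc hg))

theorem sideOK_agree (hS : ∀ u w, N u = some w → S u.1 → S w.1)
    (hxy : ∀ v, S v → y v = x v) {τ : Equiv.Perm (Fin d)} {J : ℕ} {e : Dart V d}
    (he : S e.1) : sideOK J N y τ e ↔ sideOK J N x τ e := by
  unfold sideOK
  refine forall_congr' fun c => imp_congr_right fun hc => ?_
  rw [pos_agree hS hxy (hS _ _ hc he)]

theorem own_agree' (hS : ∀ u w, N u = some w → S u.1 → S w.1)
    (hxy : ∀ v, S v → y v = x v) {τ : Equiv.Perm (Fin d)} {b : Fin d} {J : ℕ} {a : Dart V d}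
    (ha : S a.1) (n : ℕ) : own J N y τ b a n ↔ own J N x τ b a n := by
  unfold own
  rw [pos_agree hS hxy ha]
  refine exists_congr fun f => and_congr_right fun hf => ?_
  have hSf : S f.1 := pos_closed hS ha hf
  have h1 : col y f = col x f := by simp only [col, hxy _ hSf]
  have h2 : ∀ c, dt y f.1 c = dt x f.1 c := by intro c; simp only [dt, hxy _ hSf]
  rw [h1, h2, h2]
  rw [sideOK_agree hS hxy (by exact hSf), sideOK_agree hS hxy (by exact hSf)]

theorem cntOwn_agree (hS : ∀ u w, N u = some w → S u.1 → S w.1)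
    (hxy : ∀ v, S v → y v = x v) {τ : Equiv.Perm (Fin d)} {b : Fin d} {J : ℕ} {a : Dart V d}
    (ha : S a.1) (j : ℕ) : cntOwn J N y τ b a j = cntOwn J N x τ b a j := by
  unfold cntOwn
  congr 1
  exact Finset.filter_congr fun m _ => own_agree' hS hxy ha _

theorem flip_agree (hS : ∀ u w, N u = some w → S u.1 → S w.1)
    (hxy : ∀ v, S v → y v = x v) {τ : Equiv.Perm (Fin d)} {a : Dart V d}
    (ha : S a.1) (v : V) (hv : S v) : flip N y τ a v = flip N x τ a v := by
  have : onCh N y τ a v ↔ onCh N x τ a v := by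
    unfold onCh
    simp only [pos_agree hS hxy ha]
  unfold flip
  rw [hxy v hv]
  simp only [this]

theorem avail_agree (hS : ∀ u w, N u = some w → S u.1 → S w.1)
    (hxy : ∀ v, S v → y v = x v) {τ : Equiv.Perm (Fin d)} {b : Fin d} {P : Par}
    {a : Dart V d} (ha : S a.1) : avail P N y τ b a = avail P N x τ b a := by
  unfold avail
  refine List.filter_congr fun j _ => ?_
  have : sel P N y τ b a j ↔ sel P N x τ b a j := by
    unfold sel cntOth
    rw [own_agree' hS hxy ha, cntOwn_agree hS hxy ha,
      cntOwn_agree hS (flip_agree hS hxy ha) ha]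
  simp only [this]

end Agree

/-! ### the branch of a cut dart -/

theorem sub_closed {N : Adj V d} (hN : ∀ a b, N a = some b → N b = some a) {a : Dart V d}
    (hNa : N a = none) (u w : Dart V d) (huw : N u = some w) (h : Sub N a u.1) :
    Sub N a w.1 := by
  obtain ⟨q, h, hq, e⟩ := h
  by_cases hu : u.2 = h.2
  · have hue : u = h := Prod.ext e.symm hu
    subst hue
    rcases hq.snoc_inv with ⟨-, rfl⟩ | ⟨q', g, i, hq', -, hN', -⟩
    · rw [hNa] at huw; cases huw
    · have := hN _ _ hN'
      rw [huw, Option.some_inj] at this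
      exact ⟨q', g, hq', by rw [this]⟩
  · refine ⟨q ++ [u.2], w, hq.append (Wk.single hu ?_), rfl⟩
    have : ((h.1, u.2) : Dart V d) = u := Prod.ext e rfl
    rw [this, huw]

theorem addE_of_some {N : Adj V d} {a b' : Dart V d} (ha : N a = none) (hb : N b' = none)
    (u w : Dart V d) (h : N u = some w) : addE N a b' u = some w := by
  have h1 : u ≠ a := by rintro rfl; rw [ha] at h; cases h
  have h2 : u ≠ b' := by rintro rfl; rw [hb] at h; cases h
  rw [addE, if_neg h1, if_neg h2, h]

theorem exists_third (hd : 3 ≤ d) (i j : Fin d) : ∃ c : Fin d, c ≠ i ∧ c ≠ j := by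
  have h : (({i, j} : Finset (Fin d))).card < (univ : Finset (Fin d)).card := by
    have h1 : (({i, j} : Finset (Fin d))).card ≤ 2 := Finset.card_le_two
    rw [Finset.card_univ, Fintype.card_fin]
    omega
  obtain ⟨c, -, hc⟩ := Finset.exists_mem_notMem_of_card_lt_card h
  rw [Finset.mem_insert, Finset.mem_singleton] at hc
  push Not at hc
  exact ⟨c, hc.1, hc.2⟩

theorem sub_disjoint (hd : 3 ≤ d) {N : Adj V d} {a b' : Dart V d}
    (hN' : Forest (addE N a b')) (ha : N a = none) (hb : N b' = none)
    {v : V} (h1 : Sub N a v) (h2 : Sub N b' v) : False := by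
  obtain ⟨p, f, hp, hf⟩ := h1
  obtain ⟨q, g, hq, hg⟩ := h2
  have hmono := addE_of_some (N := N) (a := a) (b' := b') ha hb
  have hadd : addE N a b' a = some b' := by simp [addE]
  cases hp with
  | nil =>
    obtain ⟨i, hi, -⟩ := exists_third hd a.2 a.2
    have w1 : Wk (addE N a b') (a.1, i) (a.2 :: q) g :=
      Wk.cons (fun e => hi e.symm) hadd (hq.mono hmono)
    have w0 : Wk (addE N a b') (a.1, i) [] (a.1, i) := Wk.nil _
    have := hN'.uniq _ _ _ _ _ w0 w1 (by rw [hg, ← hf])
    exact List.cons_ne_nil _ _ this.symm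
  | @cons _ c _ j p hj hNc hw =>
    obtain ⟨i, hi, hi'⟩ := exists_third hd a.2 j
    have w1 : Wk (addE N a b') (a.1, i) (a.2 :: q) g :=
      Wk.cons (fun e => hi e.symm) hadd (hq.mono hmono)
    have w0 : Wk (addE N a b') (a.1, i) (j :: p) f :=
      Wk.cons (fun e => hi' e.symm) (hmono _ _ hNc) (hw.mono hmono)
    exact hj (hN'.head w0 w1 (by rw [hf, hg]))

theorem forest_of_addE {N : Adj V d} {a b' : Dart V d}
    (hN : ∀ a b, N a = some b → N b = some a)
    (hN' : Forest (addE N a b')) (ha : N a = none) (hb : N b' = none) : Forest N where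
  symm := hN
  uniq _ _ _ _ _ h1 h2 e :=
    hN'.uniq _ _ _ _ _ (h1.mono (addE_of_some ha hb)) (h2.mono (addE_of_some ha hb)) e

theorem cons_addE {N : Adj V d} {a b' : Dart V d} (ha : N a = none) (hb : N b' = none)
    (y : St V d) : Cons (addE N a b') y ↔ Cons N y ∧ col y a = col y b' := by
  constructor
  · intro h
    exact ⟨fun u w huw => h _ _ (addE_of_some ha hb _ _ huw), h a b' (by simp [addE])⟩
  · rintro ⟨h1, h2⟩ u w huw
    unfold addE at huw
    split_ifs at huw with e1 e2
    · rw [Option.some_inj] at huw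
      rw [e1, ← huw, h2]
    · rw [Option.some_inj] at huw
      rw [e2, ← huw, h2]
    · exact h1 _ _ huw

theorem third_spec [NeZero d] (hd : 3 ≤ d) (k l : Fin d) :
    third k l ≠ k ∧ third k l ≠ l :=
  Classical.epsilon_spec (exists_third hd k l)

theorem third_comm [NeZero d] (k l : Fin d) : third k l = third l k := by
  unfold third
  congr 1
  funext b
  exact propext and_comm

/-! ### the two moves -/

section Moves

variable {N : Adj V d} {a b' : Dart V d}

theorem flip_agree_branch (hd : 3 ≤ d) (hN : ∀ a b, N a = some b → N b = some a)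
    (hN' : Forest (addE N a b')) (ha : N a = none) (hb : N b' = none)
    (x : St V d) (τ : Equiv.Perm (Fin d)) (v : V) (hv : Sub N a v) :
    flip N x τ b' v = x v :=
  flip_off (S := Sub N b') (sub_closed hN hb) (Sub.self N b')
    (fun h => sub_disjoint hd hN' ha hb hv h)

theorem col_a_flip (hd : 3 ≤ d) (hN : ∀ a b, N a = some b → N b = some a)
    (hN' : Forest (addE N a b')) (ha : N a = none) (hb : N b' = none)
    (x : St V d) (τ : Equiv.Perm (Fin d)) : col (flip N x τ b') a = col x a := by
  simp only [col, flip_agree_branch hd hN hN' ha hb x τ a.1 (Sub.self N a)]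

theorem col_b_phi (hd : 3 ≤ d) (hN : ∀ a b, N a = some b → N b = some a)
    (hN' : Forest (addE N a b')) (ha : N a = none) (hb : N b' = none)
    (x : St V d) (τ : Equiv.Perm (Fin d)) (b : Fin d) (n : ℕ) :
    col (phi N x τ b a n) b' = col x b' := by
  have : phi N x τ b a n b'.1 = x b'.1 :=
    phi_off (S := Sub N a) (sub_closed hN ha) (Sub.self N a)
      (fun h => sub_disjoint hd hN' ha hb h (Sub.self N b'))
  simp only [col, this]

theorem avail_flip (hd : 3 ≤ d) (hN : ∀ a b, N a = some b → N b = some a)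
    (hN' : Forest (addE N a b')) (ha : N a = none) (hb : N b' = none)
    (P : Par) (x : St V d) (τ τ' : Equiv.Perm (Fin d)) (b : Fin d) :
    avail P N (flip N x τ' b') τ b a = avail P N x τ b a :=
  avail_agree (S := Sub N a) (sub_closed hN ha)
    (flip_agree_branch hd hN hN' ha hb x τ') (Sub.self N a)

theorem mem_avail {P : Par} {x : St V d} {τ : Equiv.Perm (Fin d)} {b : Fin d} {j : ℕ} :
    j ∈ avail P N x τ b a ↔ j < P.M ∧ sel P N x τ b a j := by
  simp [avail]

end Moves

/-- B1. consistency is preserved (and the repaired edge becomes consistent). -/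
theorem kern_cons [NeZero d] (hd : 3 ≤ d) (P : Par) (N : Adj V d) (a b' : Dart V d)
    (hN : ∀ a b, N a = some b → N b = some a)
    (hN' : Forest (addE N a b')) (ha : N a = none) (hb : N b' = none) (hab : a ≠ b')
    (x : St V d) (hx : Cons N x) (ξ : ℕ) : Cons (addE N a b') (kern P N x ξ a b') := by
  rw [cons_addE ha hb]
  unfold kern
  by_cases hcc : col x a = col x b'
  · rw [if_pos hcc]; exact ⟨hx, hcc⟩
  rw [if_neg hcc]
  obtain ⟨h1, h2⟩ := third_spec hd (col x a) (col x b')
  cases hs : (avail P N x (Equiv.swap (col x a) (col x b'))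
      (third (col x a) (col x b')) a)[ξ]? with
  | some j =>
    have hj := mem_avail.1 (List.mem_of_getElem? hs)
    obtain ⟨g1, g2, -, -⟩ := phi_good (forest_of_addE hN hN' ha hb) ha hx hcc h1 h2
      (Or.inl rfl) hj.2
    refine ⟨g1, ?_⟩
    simp only
    rw [g2, col_b_phi hd hN hN' ha hb, Equiv.swap_apply_left]
  | none =>
    refine ⟨flip_cons hN hx hb (Or.inr rfl), ?_⟩
    simp only
    rw [col_a_flip hd hN hN' ha hb, col_flip_origin, Equiv.swap_apply_right]

end FI
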