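import Pool.Agent.H99.FI.Exact.Comp

/-!
# Exactness of the repair kernel (job B of MP_bdd10f_pr)
-/

set_option autoImplicit false

namespace FI

open Finset Function
open scoped Classical

variable {V : Type*} {d : ℕ}

/-! ### lists -/

theorem sum_getElem? (L : List ℕ) (K : ℕ) (hL : L.length ≤ K) (G : ℕ → ℝ) (c : ℝ) :
    ∑ ξ ∈ range K, (match L[ξ]? with | some j => G j | none => c) =
      (L.map G).sum + ((K : ℝ) - L.length) * c := by
  induction L generalizing K with
  | nil => simp
  | cons j L ih =>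
    cases K with
    | zero => simp at hL
    | succ K =>
      rw [Finset.sum_range_succ']
      simp only [List.getElem?_cons_succ, List.getElem?_cons_zero, List.map_cons,
        List.sum_cons, List.length_cons]
      rw [ih K (by simpa using hL)]
      push_cast
      ring

theorem avail_nodup (P : Par) (N : Adj V d) (x : St V d) (τ : Equiv.Perm (Fin d))
    (b : Fin d) (a : Dart V d) : (avail P N x τ b a).Nodup :=
  List.Nodup.filter _ List.nodup_range

theorem avail_toFinset (P : Par) (N : Adj V d) (x : St V d) (τ : Equiv.Perm (Fin d))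
    (b : Fin d) (a : Dart V d) :
    (avail P N x τ b a).toFinset = (range P.M).filter (fun j => sel P N x τ b a j) := by
  ext j
  rw [List.mem_toFinset, mem_avail, Finset.mem_filter, Finset.mem_range]

theorem avail_card (P : Par) (N : Adj V d) (x : St V d) (τ : Equiv.Perm (Fin d))
    (b : Fin d) (a : Dart V d) :
    ((range P.M).filter (fun j => sel P N x τ b a j)).card =
      (avail P N x τ b a).length := by
  rw [← avail_toFinset, List.toFinset_card_of_nodup (avail_nodup ..)]

theorem avail_length_le (P : Par) (N : Adj V d) (x : St V d) (τ : Equiv.Perm (Fin d))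
    (b : Fin d) (a : Dart V d) : (avail P N x τ b a).length ≤ P.K := by
  rw [← avail_card]
  set s := (range P.M).filter (fun j => sel P N x τ b a j) with hs
  rcases s.eq_empty_or_nonempty with h | h
  · rw [h]; simp
  · have hm := s.max'_mem h
    set m := s.max' h with hmdef
    have hm' : sel P N x τ b a m := (Finset.mem_filter.1 hm).2
    have hsub : s.erase m ⊆ (range m).filter (fun i => own P.J N x τ b a (2 * i)) := by
      intro i hi
      rw [Finset.mem_erase] at hi
      rw [Finset.mem_filter, Finset.mem_range]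
      refine ⟨lt_of_le_of_ne (s.le_max' i hi.2) hi.1, ?_⟩
      exact (Finset.mem_filter.1 hi.2).2.1
    have h1 := Finset.card_le_card hsub
    rw [Finset.card_erase_of_mem hm] at h1
    have h2 : ((range m).filter (fun i => own P.J N x τ b a (2 * i))).card < P.K := hm'.2.1
    omega

/-- the sum over the noise -/
theorem sum_noise [NeZero d] (P : Par) (N : Adj V d) (a b' : Dart V d) (F : St V d → ℝ)
    {x : St V d} {k l : Fin d} (hkl : k ≠ l) (hk : col x a = k) (hl : col x b' = l) :
    ∑ ξ ∈ range P.K, F (kern P N x ξ a b') =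
      ∑ j ∈ (range P.M).filter (fun j => sel P N x (Equiv.swap k l) (third k l) a j),
        F (phi N x (Equiv.swap k l) (third k l) a (2 * j)) +
      ((P.K : ℝ) - (avail P N x (Equiv.swap k l) (third k l) a).length) *
        F (flip N x (Equiv.swap k l) b') := by
  have hne : col x a ≠ col x b' := by rw [hk, hl]; exact hkl
  rw [← avail_toFinset, List.sum_toFinset _ (avail_nodup ..),
    ← sum_getElem? _ _ (avail_length_le ..)]
  refine Finset.sum_congr rfl fun ξ _ => ?_
  unfold kern
  rw [if_neg hne, hk, hl]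
  cases (avail P N x (Equiv.swap k l) (third k l) a)[ξ]? <;> rfl

section Exact

variable (N : Adj V d) (a b' : Dart V d) (X : Finset (St V d))

/-- consistent states with given colours at the two ends of the cut edge -/
noncomputable def Om (k l : Fin d) : Finset (St V d) :=
  X.filter (fun x => Cons N x ∧ col x a = k ∧ col x b' = l)

theorem mem_Om {k l : Fin d} {x : St V d} :
    x ∈ Om N a b' X k l ↔ x ∈ X ∧ Cons N x ∧ col x a = k ∧ col x b' = l := by
  simp [Om]

theorem sum_Om (G : St V d → ℝ) :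
    ∑ x ∈ X.filter (fun x => Cons N x), G x = ∑ k, ∑ l, ∑ x ∈ Om N a b' X k l, G x := by
  rw [← Finset.sum_fiberwise (X.filter (fun x => Cons N x)) (fun x => col x a) G]
  refine Finset.sum_congr rfl fun k _ => ?_
  rw [← Finset.sum_fiberwise ((X.filter (fun x => Cons N x)).filter (fun x => col x a = k))
    (fun x => col x b') G]
  refine Finset.sum_congr rfl fun l _ => ?_
  refine Finset.sum_congr ?_ fun _ _ => rfl
  ext x
  simp only [Finset.mem_filter, mem_Om]
  tauto

theorem sum_diag (ha : N a = none) (hb : N b' = none) (F : St V d → ℝ) :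
    ∑ y ∈ X.filter (fun y => Cons (addE N a b') y), F y =
      ∑ k, ∑ y ∈ Om N a b' X k k, F y := by
  rw [← Finset.sum_fiberwise (X.filter (fun y => Cons (addE N a b') y))
    (fun x => col x a) F]
  refine Finset.sum_congr rfl fun k _ => ?_
  refine Finset.sum_congr ?_ fun _ _ => rfl
  ext x
  simp only [Finset.mem_filter, mem_Om, cons_addE ha hb]
  constructor
  · rintro ⟨⟨h1, h2, h3⟩, h4⟩
    exact ⟨h1, h2, h4, by rw [← h3, h4]⟩
  · rintro ⟨h1, h2, h3, h4⟩
    exact ⟨⟨h1, h2, by rw [h3, h4]⟩, h3⟩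

variable {N a b' X}

theorem closed_B (hN : ∀ a b, N a = some b → N b = some a) {B : Finset V}
    (hB : ∀ c, N c ≠ none → c.1 ∈ B) (u w : Dart V d) (huw : N u = some w)
    (_ : u.1 ∈ B) : w.1 ∈ B := hB w (by rw [hN _ _ huw]; simp)

/-- the exchange is a bijection for every index -/
theorem sum_exchange [NeZero d] (hd : 3 ≤ d) (P : Par)
    (hN : ∀ a b, N a = some b → N b = some a)
    (hN' : Forest (addE N a b')) (ha : N a = none) (hb : N b' = none)
    {B : Finset V} (hB : ∀ c, N c ≠ none → c.1 ∈ B) (haB : a.1 ∈ B)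
    (hX : ∀ x ∈ X, ∀ y : St V d, (∀ v, v ∉ B → y v = x v) → y ∈ X)
    (F : St V d → ℝ) {k l : Fin d} (hkl : k ≠ l) (j : ℕ) :
    ∑ x ∈ (Om N a b' X k l).filter (fun x => sel P N x (Equiv.swap k l) (third k l) a j),
      F (phi N x (Equiv.swap k l) (third k l) a (2 * j)) =
    ∑ y ∈ (Om N a b' X l l).filter (fun x => sel P N x (Equiv.swap k l) (third k l) a j),
      F y := by
  obtain ⟨h1, h2⟩ := third_spec hd k l
  have hF := forest_of_addE hN hN' ha hb
  have hmem : ∀ x ∈ X, phi N x (Equiv.swap k l) (third k l) a (2 * j) ∈ X := fun x hx =>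
    hX x hx _ fun v hv => phi_off (S := fun v => v ∈ B) (closed_B hN hB) haB hv
  refine Finset.sum_nbij' (fun x => phi N x (Equiv.swap k l) (third k l) a (2 * j))
    (fun x => phi N x (Equiv.swap k l) (third k l) a (2 * j)) ?_ ?_ ?_ ?_ ?_
  · intro x hx
    rw [Finset.mem_filter, mem_Om] at hx
    obtain ⟨⟨hxX, hxc, hxa, hxb⟩, hs⟩ := hx
    obtain ⟨g1, g2, g3, -⟩ := phi_good hF ha hxc hkl h1 h2 (Or.inl hxa) hs
    rw [Finset.mem_filter, mem_Om]
    refine ⟨⟨hmem x hxX, g1, ?_, ?_⟩, g3⟩
    · rw [g2, hxa, Equiv.swap_apply_left]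
    · rw [col_b_phi hd hN hN' ha hb, hxb]
  · intro x hx
    rw [Finset.mem_filter, mem_Om] at hx
    obtain ⟨⟨hxX, hxc, hxa, hxb⟩, hs⟩ := hx
    obtain ⟨g1, g2, g3, -⟩ := phi_good hF ha hxc hkl h1 h2 (Or.inr hxa) hs
    rw [Finset.mem_filter, mem_Om]
    refine ⟨⟨hmem x hxX, g1, ?_, ?_⟩, g3⟩
    · rw [g2, hxa, Equiv.swap_apply_right]
    · rw [col_b_phi hd hN hN' ha hb, hxb]
  · intro x hx
    rw [Finset.mem_filter, mem_Om] at hx
    obtain ⟨⟨hxX, hxc, hxa, hxb⟩, hs⟩ := hx
    exact (phi_good hF ha hxc hkl h1 h2 (Or.inl hxa) hs).2.2.2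
  · intro x hx
    rw [Finset.mem_filter, mem_Om] at hx
    obtain ⟨⟨hxX, hxc, hxa, hxb⟩, hs⟩ := hx
    exact (phi_good hF ha hxc hkl h1 h2 (Or.inr hxa) hs).2.2.2
  · intro x _
    rfl

/-- the flip of the other branch is a bijection -/
theorem sum_flip [NeZero d] (hd : 3 ≤ d) (P : Par)
    (hN : ∀ a b, N a = some b → N b = some a)
    (hN' : Forest (addE N a b')) (ha : N a = none) (hb : N b' = none)
    {B : Finset V} (hB : ∀ c, N c ≠ none → c.1 ∈ B) (hbB : b'.1 ∈ B)
    (hX : ∀ x ∈ X, ∀ y : St V d, (∀ v, v ∉ B → y v = x v) → y ∈ X)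
    (F : St V d → ℝ) {k l : Fin d} :
    ∑ x ∈ Om N a b' X k l,
      ((P.K : ℝ) - (avail P N x (Equiv.swap k l) (third k l) a).length) *
        F (flip N x (Equiv.swap k l) b') =
    ∑ y ∈ Om N a b' X k k,
      ((P.K : ℝ) - (avail P N y (Equiv.swap k l) (third k l) a).length) * F y := by
  have hmem : ∀ x ∈ X, flip N x (Equiv.swap k l) b' ∈ X := fun x hx =>
    hX x hx _ fun v hv => flip_off (S := fun v => v ∈ B) (closed_B hN hB) hbB hv
  refine Finset.sum_nbij' (fun x => flip N x (Equiv.swap k l) b')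
    (fun x => flip N x (Equiv.swap k l) b') ?_ ?_ ?_ ?_ ?_
  · intro x hx
    rw [mem_Om] at hx ⊢
    obtain ⟨hxX, hxc, hxa, hxb⟩ := hx
    refine ⟨hmem x hxX, flip_cons hN hxc hb (Or.inr hxb), ?_, ?_⟩
    · rw [col_a_flip hd hN hN' ha hb, hxa]
    · rw [col_flip_origin, hxb, Equiv.swap_apply_right]
  · intro x hx
    rw [mem_Om] at hx ⊢
    obtain ⟨hxX, hxc, hxa, hxb⟩ := hx
    refine ⟨hmem x hxX, flip_cons hN hxc hb (Or.inl hxb), ?_, ?_⟩
    · rw [col_a_flip hd hN hN' ha hb, hxa]
    · rw [col_flip_origin, hxb, Equiv.swap_apply_left]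
  · intro x _
    exact flip_flip N x k l b'
  · intro x _
    exact flip_flip N x k l b'
  · intro x _
    rw [avail_flip hd hN hN' ha hb]

theorem sum_offdiag [NeZero d] (hd : 3 ≤ d) (P : Par)
    (hN : ∀ a b, N a = some b → N b = some a)
    (hN' : Forest (addE N a b')) (ha : N a = none) (hb : N b' = none)
    {B : Finset V} (hB : ∀ c, N c ≠ none → c.1 ∈ B) (haB : a.1 ∈ B) (hbB : b'.1 ∈ B)
    (hX : ∀ x ∈ X, ∀ y : St V d, (∀ v, v ∉ B → y v = x v) → y ∈ X)
    (F : St V d → ℝ) {k l : Fin d} (hkl : k ≠ l) :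
    ∑ x ∈ Om N a b' X k l, ∑ ξ ∈ range P.K, F (kern P N x ξ a b') =
      ∑ y ∈ Om N a b' X l l,
        ((avail P N y (Equiv.swap k l) (third k l) a).length : ℝ) * F y +
      ∑ y ∈ Om N a b' X k k,
        ((P.K : ℝ) - (avail P N y (Equiv.swap k l) (third k l) a).length) * F y := by
  have h0 : ∀ x ∈ Om N a b' X k l, ∑ ξ ∈ range P.K, F (kern P N x ξ a b') =
      ∑ j ∈ (range P.M).filter (fun j => sel P N x (Equiv.swap k l) (third k l) a j),
        F (phi N x (Equiv.swap k l) (third k l) a (2 * j)) +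
      ((P.K : ℝ) - (avail P N x (Equiv.swap k l) (third k l) a).length) *
        F (flip N x (Equiv.swap k l) b') := by
    intro x hx
    rw [mem_Om] at hx
    exact sum_noise P N a b' F hkl hx.2.2.1 hx.2.2.2
  rw [Finset.sum_congr rfl h0, Finset.sum_add_distrib,
    sum_flip hd P hN hN' ha hb hB hbB hX]
  congr 1
  have h1 : ∑ x ∈ Om N a b' X k l,
      ∑ j ∈ (range P.M).filter (fun j => sel P N x (Equiv.swap k l) (third k l) a j),
        F (phi N x (Equiv.swap k l) (third k l) a (2 * j)) =
      ∑ j ∈ range P.M, ∑ x ∈ (Om N a b' X k l).filter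
        (fun x => sel P N x (Equiv.swap k l) (third k l) a j),
        F (phi N x (Equiv.swap k l) (third k l) a (2 * j)) := by
    simp only [Finset.sum_filter]
    exact Finset.sum_comm
  have h2 : ∑ y ∈ Om N a b' X l l,
        ((avail P N y (Equiv.swap k l) (third k l) a).length : ℝ) * F y =
      ∑ j ∈ range P.M, ∑ x ∈ (Om N a b' X l l).filter
        (fun x => sel P N x (Equiv.swap k l) (third k l) a j), F x := by
    have : ∀ y ∈ Om N a b' X l l,
        ((avail P N y (Equiv.swap k l) (third k l) a).length : ℝ) * F y =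
        ∑ j ∈ range P.M, if sel P N y (Equiv.swap k l) (third k l) a j then F y else 0 := by
      intro y _
      rw [← Finset.sum_filter, Finset.sum_const, avail_card, nsmul_eq_mul]
    rw [Finset.sum_congr rfl this, Finset.sum_comm]
    simp only [Finset.sum_filter]
  rw [h1, h2]
  exact Finset.sum_congr rfl fun j _ =>
    sum_exchange hd P hN hN' ha hb hB haB hX F hkl j

end Exact

/-- B2. exactness -/
theorem kern_exact [NeZero d] (hd : 3 ≤ d) (P : Par) (N : Adj V d) (a b' : Dart V d)
    (hN : ∀ a b, N a = some b → N b = some a)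
    (hN' : Forest (addE N a b')) (ha : N a = none) (hb : N b' = none) (hab : a ≠ b')
    (B : Finset V) (hB : ∀ c, N c ≠ none → c.1 ∈ B) (haB : a.1 ∈ B) (hbB : b'.1 ∈ B)
    (X : Finset (St V d))
    (hX : ∀ x ∈ X, ∀ y : St V d, (∀ v, v ∉ B → y v = x v) → y ∈ X)
    (F : St V d → ℝ) :
    ∑ x ∈ X.filter (fun x => Cons N x), ∑ ξ ∈ range P.K, F (kern P N x ξ a b') =
      (P.K : ℝ) * d * ∑ y ∈ X.filter (fun y => Cons (addE N a b') y), F y := by
  rw [sum_Om N a b' X, sum_diag N a b' X ha hb]
  set A : Fin d → Fin d → St V d → ℝ := fun k l y =>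
    ((avail P N y (Equiv.swap k l) (third k l) a).length : ℝ) with hA
  have hAsymm : ∀ k l y, A k l y = A l k y := by
    intro k l y
    simp only [hA]
    rw [Equiv.swap_comm k l, third_comm k l]
  set U : Fin d → Fin d → ℝ := fun k l => ∑ y ∈ Om N a b' X l l, A k l y * F y with hU
  set W : Fin d → Fin d → ℝ := fun k l =>
    ∑ y ∈ Om N a b' X k k, ((P.K : ℝ) - A k l y) * F y with hW
  set S : Fin d → ℝ := fun k => ∑ y ∈ Om N a b' X k k, F y with hS
  have hT : ∀ k l, ∑ x ∈ Om N a b' X k l, ∑ ξ ∈ range P.K, F (kern P N x ξ a b') =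
      (if k = l then (P.K : ℝ) * S k else W k l) + (if k = l then 0 else U k l) := by
    intro k l
    by_cases hkl : k = l
    · subst hkl
      rw [if_pos rfl, if_pos rfl, add_zero, hS]
      simp only
      rw [Finset.mul_sum]
      refine Finset.sum_congr rfl fun x hx => ?_
      rw [mem_Om] at hx
      have : ∀ ξ, kern P N x ξ a b' = x := by
        intro ξ
        unfold kern
        rw [if_pos (by rw [hx.2.2.1, hx.2.2.2])]
      simp only [this, Finset.sum_const, Finset.card_range, nsmul_eq_mul]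
    · rw [if_neg hkl, if_neg hkl, sum_offdiag hd P hN hN' ha hb hB haB hbB hX F hkl,
        add_comm]
  have hUW : ∀ k l, U l k + W k l = (P.K : ℝ) * S k := by
    intro k l
    simp only [hU, hW, hS]
    rw [← Finset.sum_add_distrib, Finset.mul_sum]
    refine Finset.sum_congr rfl fun y _ => ?_
    rw [hAsymm l k y]
    ring
  calc ∑ k, ∑ l, ∑ x ∈ Om N a b' X k l, ∑ ξ ∈ range P.K, F (kern P N x ξ a b')
      = ∑ k, ∑ l, (if k = l then (P.K : ℝ) * S k else W k l) +
        ∑ k, ∑ l, (if k = l then 0 else U k l) := by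
        simp only [hT, Finset.sum_add_distrib]
    _ = ∑ k, ∑ l, (if k = l then (P.K : ℝ) * S k else W k l) +
        ∑ k, ∑ l, (if l = k then 0 else U l k) := by
        congr 1
        exact Finset.sum_comm
    _ = ∑ k : Fin d, ∑ _l : Fin d, (P.K : ℝ) * S k := by
        rw [← Finset.sum_add_distrib]
        refine Finset.sum_congr rfl fun k _ => ?_
        rw [← Finset.sum_add_distrib]
        refine Finset.sum_congr rfl fun l _ => ?_
        by_cases hkl : k = l
        · rw [if_pos hkl, if_pos hkl.symm, add_zero]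
        · rw [if_neg hkl, if_neg (fun h => hkl h.symm), add_comm, hUW]
    _ = (P.K : ℝ) * d * ∑ k, S k := by
        simp only [Finset.sum_const, Finset.card_univ, Fintype.card_fin, nsmul_eq_mul]
        rw [Finset.mul_sum]
        exact Finset.sum_congr rfl fun k _ => by ring

end FI
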