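import Pool.Agent.H99.FI.Exact.Phi

/-!
# Availability of the exchange before and after (job B of MP_bdd10f_pr)
-/

set_option autoImplicit false

namespace FI

open Finset Function
open scoped Classical

variable {V : Type*} {d : ℕ}

/-- availability at an early position depends only on the state off the subtree below `f` -/
theorem own_agree {N : Adj V d} (hF : Forest N) {y z : St V d} (hz : Cons N z)
    {k l b : Fin d} (hkl : k ≠ l) (hbk : b ≠ k) (hbl : b ≠ l) {a f : Dart V d} {n m : ℕ}
    (ha : col z a = k ∨ col z a = l) (hf : pos N z (Equiv.swap k l) a n = some f)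
    (hy : ∀ v, ¬ Sub N f v → y v = z v) (hm : m + 2 ≤ n) (J : ℕ) :
    own J N y (Equiv.swap k l) b a m ↔ own J N z (Equiv.swap k l) b a m := by
  obtain ⟨g, hg, hgf⟩ := pos_some_of_le (by omega : m ≤ n) hf
  obtain ⟨w, hw, hwk, -⟩ := pos_wk hz hkl ha hf
  have hshort : ∀ i < n, ∀ h, pos N z (Equiv.swap k l) a i = some h → y h.1 = z h.1 := by
    intro i hi h hh
    refine hy _ ?_
    rintro ⟨q, h', hq, e⟩
    obtain ⟨w', hw', hwk', -⟩ := pos_wk hz hkl ha hh
    have := hF.uniq _ _ _ _ _ hwk' (hwk.append hq) e.symm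
    have h2 := congrArg List.length this
    rw [List.length_append] at h2
    omega
  have hgc := pos_col hz ha hg
  have hyg : y g.1 = z g.1 := hshort m (by omega) g hg
  have hposy : pos N y (Equiv.swap k l) a m = some g := by
    rw [← hg]
    exact pos_congr fun i hi h hh => Or.inl (hshort i (by omega) h hh)
  have hcol : col y g = col z g := by simp only [col, hyg]
  have hdt : ∀ c, dt y g.1 c = dt z g.1 c := by intro c; simp only [dt, hyg]
  have hswg := sw_mem hgc
  -- the first child of the main chain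
  obtain ⟨c₀, hc₀, hc₀f⟩ := pos_some_of_le (by omega : 1 ≤ n - m) hgf
  have hc₀N : N (lv z (Equiv.swap k l) g) = some c₀ := by
    obtain ⟨g', h1, h2⟩ := pos_succ_iff.1 hc₀
    rw [pos_zero, Option.some_inj] at h1
    rw [h1]; exact h2
  have hc₀c : col z c₀ = Equiv.swap k l (col z g) := by rw [← hz _ _ hc₀N, col_lv]
  obtain ⟨w₁, -, hw₁, hw₁'⟩ := pos_wk hz hkl (by rw [hc₀c]; exact hswg) hc₀f
  obtain ⟨u₁, rfl⟩ := hw₁' (by omega)
  obtain ⟨w₂, -, hw₂, hw₂'⟩ := pos_wk hz hkl hgc hgf
  obtain ⟨u₂, rfl⟩ := hw₂' (by omega)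
  -- the two side conditions
  have s1 : sideOK J N y (Equiv.swap (Equiv.swap k l (col z g)) b)
      (dt z g.1 (Equiv.swap k l (col z g))) ↔
      sideOK J N z (Equiv.swap (Equiv.swap k l (col z g)) b)
      (dt z g.1 (Equiv.swap k l (col z g))) := by
    unfold sideOK
    refine forall_congr' fun c => imp_congr_right fun hc => ?_
    have hcc : c = c₀ := by
      have : N (lv z (Equiv.swap k l) g) = some c := hc
      rw [hc₀N, Option.some_inj] at this
      exact this.symm
    subst hcc
    rw [pos_congr (x := z) (y := y)]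
    intro i _ h hh
    left
    refine hy _ ?_
    rintro ⟨q, h', hq, e⟩
    have hne : Equiv.swap k l (col z g) ≠ b := by
      rcases hswg with h | h <;> rw [h]
      · exact hbk.symm
      · exact hbl.symm
    obtain ⟨w₃, hl₃, hw₃, hw₃'⟩ := pos_wk hz hne (Or.inl hc₀c) hh
    have hU := hF.uniq _ _ _ _ _ hw₃ (hw₁.append hq) e.symm
    rcases Nat.eq_zero_or_pos i with h0 | h0
    · rw [h0, List.length_eq_zero_iff] at hl₃
      rw [hl₃] at hU
      exact List.cons_ne_nil _ _ hU.symm
    · obtain ⟨u₃, rfl⟩ := hw₃' h0.ne'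
      rw [List.cons_append] at hU
      have h1 := dt_snd_inj z (List.cons.inj hU).1
      rw [hc₀c, Equiv.swap_apply_left] at h1
      have h2 := sw_mem hswg
      rw [← h1] at h2
      rcases h2 with h2 | h2
      · exact hbk h2
      · exact hbl h2
  have s2 : sideOK J N y (Equiv.swap b (col z g)) (dt z g.1 b) ↔
      sideOK J N z (Equiv.swap b (col z g)) (dt z g.1 b) := by
    unfold sideOK
    refine forall_congr' fun c => imp_congr_right fun hc => ?_
    rw [pos_congr (x := z) (y := y)]
    intro i _ h hh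
    left
    refine hy _ ?_
    rintro ⟨q, h', hq, e⟩
    have hne : b ≠ col z g := by
      rcases hgc with h | h <;> rw [h]
      · exact hbk
      · exact hbl
    have hcb : col z c = b := by rw [← hz _ _ hc, col_dt]
    obtain ⟨w₃, -, hw₃, -⟩ := pos_wk hz hne (Or.inl hcb) hh
    have h3 : Wk N g ((dt z g.1 b).2 :: w₃) h := Wk.cons (dt_snd_ne z hne) hc hw₃
    have h4 := hw₂.append hq
    rw [List.cons_append] at h4
    have h1 := dt_snd_inj z (hF.head h3 h4 e.symm)
    rw [← h1] at hswg
    rcases hswg with h2 | h2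
    · exact hbk h2
    · exact hbl h2
  unfold own
  rw [hposy, hg]
  constructor
  · rintro ⟨g', h0, h1, h2⟩
    rw [Option.some_inj] at h0
    subst h0
    rw [hcol, hdt, s1] at h1
    rw [hcol, hdt, s2] at h2
    exact ⟨g, rfl, h1, h2⟩
  · rintro ⟨g', h0, h1, h2⟩
    rw [Option.some_inj] at h0
    subst h0
    refine ⟨g, rfl, ?_, ?_⟩
    · rw [hcol, hdt, s1]; exact h1
    · rw [hcol, hdt, s2]; exact h2

namespace Ctx

variable {N : Adj V d} {x : St V d} {k l b : Fin d} {a : Dart V d} {f : Dart V d} {j : ℕ}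

theorem cntOwn_phi (C : Ctx N x k l b a (2 * j) f) (J : ℕ) :
    cntOwn J N (phi N x (Equiv.swap k l) b a (2 * j)) (Equiv.swap k l) b a j =
      cntOth J N x (Equiv.swap k l) b a j := by
  unfold cntOth cntOwn
  congr 1
  refine Finset.filter_congr fun m hm => ?_
  rw [Finset.mem_range] at hm
  refine own_agree C.forest (flip_cons C.symm C.cons C.Na C.col_a) C.kl C.bk C.bl ?_
    (by rw [flip_pos, C.pos_f]) (fun v hv => C.phi_off_sub hv) (by omega) J
  rw [col_flip_origin]
  exact sw_mem C.col_a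

theorem cntOth_phi (C : Ctx N x k l b a (2 * j) f) (J : ℕ) :
    cntOth J N (phi N x (Equiv.swap k l) b a (2 * j)) (Equiv.swap k l) b a j =
      cntOwn J N x (Equiv.swap k l) b a j := by
  have h := C.dual.cntOwn_phi J
  rw [Equiv.swap_comm l k, C.phi_phi] at h
  exact h.symm

theorem sel_phi (C : Ctx N x k l b a (2 * j) f) (P : Par) :
    sel P N (phi N x (Equiv.swap k l) b a (2 * j)) (Equiv.swap k l) b a j ↔
      sel P N x (Equiv.swap k l) b a j := by
  unfold sel
  rw [C.own_phi, C.cntOwn_phi, C.cntOth_phi]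
  tauto

end Ctx

/-- all properties of a selected exchange -/
theorem phi_good {N : Adj V d} (hF : Forest N) {a : Dart V d} (hNa : N a = none)
    {x : St V d} (hx : Cons N x) {k l b : Fin d} (hkl : k ≠ l) (hbk : b ≠ k) (hbl : b ≠ l)
    (ha : col x a = k ∨ col x a = l) {P : Par} {j : ℕ}
    (hs : sel P N x (Equiv.swap k l) b a j) :
    Cons N (phi N x (Equiv.swap k l) b a (2 * j)) ∧
    col (phi N x (Equiv.swap k l) b a (2 * j)) a = Equiv.swap k l (col x a) ∧
    sel P N (phi N x (Equiv.swap k l) b a (2 * j)) (Equiv.swap k l) b a j ∧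
    phi N (phi N x (Equiv.swap k l) b a (2 * j)) (Equiv.swap k l) b a (2 * j) = x := by
  obtain ⟨f, hf, -⟩ := hs.1
  rcases pos_col hx ha hf with hc | hc
  · have C : Ctx N x k l b a (2 * j) f := ⟨hF, hNa, hx, hkl, hbk, hbl, ha, hf, hc⟩
    exact ⟨C.phi_cons, C.col_phi_a, (C.sel_phi P).2 hs, C.phi_phi⟩
  · rw [Equiv.swap_comm k l] at hf hs ⊢
    have C : Ctx N x l k b a (2 * j) f :=
      ⟨hF, hNa, hx, hkl.symm, hbl, hbk, ha.symm, hf, hc⟩
    exact ⟨C.phi_cons, C.col_phi_a, (C.sel_phi P).2 hs, C.phi_phi⟩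

end FI
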