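import Pool.Agent.H99.FI.Exact.Basic

/-!
# The look-ahead exchange (job B of MP_bdd10f_pr)
-/

set_option autoImplicit false

namespace FI

open Finset Function
open scoped Classical

variable {V : Type*} {d : ℕ}

/-! ### the 3-cycle -/

theorem cyc_left {k l b : Fin d} (hkl : k ≠ l) (hbl : b ≠ l) : cyc k l b k = l := by
  rw [cyc, Equiv.Perm.mul_apply, Equiv.swap_apply_left,
    Equiv.swap_apply_of_ne_of_ne hkl.symm hbl.symm]

theorem cyc_mid (k l b : Fin d) : cyc k l b l = b := by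
  rw [cyc, Equiv.Perm.mul_apply, Equiv.swap_apply_right, Equiv.swap_apply_left]

theorem cyc_right {k l b : Fin d} (hbk : b ≠ k) (hbl : b ≠ l) : cyc k l b b = k := by
  rw [cyc, Equiv.Perm.mul_apply, Equiv.swap_apply_of_ne_of_ne hbk hbl, Equiv.swap_apply_right]

theorem cyc_other {k l b c : Fin d} (hk : c ≠ k) (hl : c ≠ l) (hb : c ≠ b) :
    cyc k l b c = c := by
  rw [cyc, Equiv.Perm.mul_apply, Equiv.swap_apply_of_ne_of_ne hk hl,
    Equiv.swap_apply_of_ne_of_ne hk hb]

theorem cyc_mul_cyc {k l b : Fin d} (hkl : k ≠ l) (hbk : b ≠ k) (hbl : b ≠ l) :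
    cyc l k b * cyc k l b = 1 := by
  ext c
  rw [Equiv.Perm.mul_apply, Equiv.Perm.one_apply]
  by_cases h1 : c = k
  · subst h1; rw [cyc_left hkl hbl, cyc_left hkl.symm hbk]
  by_cases h2 : c = l
  · subst h2; rw [cyc_mid, cyc_right hbl hbk]
  by_cases h3 : c = b
  · subst h3; rw [cyc_right hbk hbl, cyc_mid]
  rw [cyc_other h1 h2 h3, cyc_other h2 h1 h3]

/-! ### regions -/

/-- main path before position `n` -/
def R0 (N : Adj V d) (x : St V d) (τ : Equiv.Perm (Fin d)) (a : Dart V d) (n : ℕ) (v : V) :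
    Prop := ∃ i g, i < n ∧ pos N x τ a i = some g ∧ g.1 = v

/-- side chain at the vertex of `f`, leaving through colour `l`, pair `(l, b)` -/
def Rs (N : Adj V d) (x : St V d) (f : Dart V d) (l b : Fin d) (v : V) : Prop :=
  ∃ c, N (dt x f.1 l) = some c ∧ onCh N x (Equiv.swap l b) c v

/-- vertices below the arrival dart `f` -/
def Sub (N : Adj V d) (f : Dart V d) (v : V) : Prop := ∃ q h, Wk N f q h ∧ h.1 = v

theorem Sub.self (N : Adj V d) (f : Dart V d) : Sub N f f.1 := ⟨[], f, Wk.nil f, rfl⟩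

theorem phi_apply {N : Adj V d} {x : St V d} {τ : Equiv.Perm (Fin d)} {b k l : Fin d}
    {a f : Dart V d} {n : ℕ} (hf : pos N x τ a n = some f) (hk : col x f = k) (hl : τ k = l)
    (v : V) :
    phi N x τ b a n v =
      if v = f.1 then cyc k l b * x v
      else if R0 N x τ a n v then τ * x v
      else if Rs N x f l b v then Equiv.swap l b * x v
      else if Rs N x f b k v then Equiv.swap b k * x v
      else x v := by
  unfold phi
  rw [hf]
  simp only [hk, hl, R0, Rs]
  congr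

theorem Rs_wk {N : Adj V d} {x : St V d} (hx : Cons N x) {f : Dart V d} {l b : Fin d}
    (hlb : l ≠ b) (hl : l ≠ col x f) {v : V} (h : Rs N x f l b v) :
    ∃ u g, Wk N f ((dt x f.1 l).2 :: u) g ∧ g.1 = v := by
  obtain ⟨c, hc, i, g, hg, hv⟩ := h
  have hcc : col x c = l := by rw [← hx _ _ hc, col_dt]
  obtain ⟨w, -, hw, -⟩ := pos_wk hx hlb (Or.inl hcc) hg
  exact ⟨w, g, Wk.cons (dt_snd_ne x hl) hc hw, hv⟩

/-- closure of a side chain -/
theorem Rs_nb {N : Adj V d} (hN : ∀ a b, N a = some b → N b = some a) {x : St V d}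
    (hx : Cons N x) {f : Dart V d} {l b : Fin d} {u w : Dart V d} (huw : N u = some w)
    (hw : w.1 ≠ f.1) (hc : col x u = l ∨ col x u = b) (h : Rs N x f l b u.1) :
    Rs N x f l b w.1 := by
  obtain ⟨c, hc1, hc2⟩ := h
  have hcc : col x c = l := by rw [← hx _ _ hc1, col_dt]
  refine ⟨c, hc1, onCh_nb hN hx (Or.inl hcc) huw ?_ hc hc2⟩
  rintro rfl
  have := hN _ _ hc1
  rw [huw, Option.some_inj] at this
  exact hw (by rw [this, dt_fst])

/-- standing assumptions -/
structure Ctx (N : Adj V d) (x : St V d) (k l b : Fin d) (a : Dart V d) (n : ℕ)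
    (f : Dart V d) : Prop where
  forest : Forest N
  Na : N a = none
  cons : Cons N x
  kl : k ≠ l
  bk : b ≠ k
  bl : b ≠ l
  col_a : col x a = k ∨ col x a = l
  pos_f : pos N x (Equiv.swap k l) a n = some f
  col_f : col x f = k

namespace Ctx

variable {N : Adj V d} {x : St V d} {k l b : Fin d} {a : Dart V d} {n : ℕ} {f : Dart V d}

theorem symm (C : Ctx N x k l b a n f) : ∀ a b, N a = some b → N b = some a := C.forest.symm

theorem wk (C : Ctx N x k l b a n f) : ∃ w, w.length = n ∧ Wk N a w f := by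
  obtain ⟨w, h1, h2, -⟩ := pos_wk C.cons C.kl C.col_a C.pos_f
  exact ⟨w, h1, h2⟩

theorem not_sub_of_short (C : Ctx N x k l b a n f) {w : List (Fin d)} {g : Dart V d}
    (hw : w.length < n) (hg : Wk N a w g) : ¬ Sub N f g.1 := by
  rintro ⟨q, h, hq, e⟩
  obtain ⟨w', hw', hwk⟩ := C.wk
  have := C.forest.uniq _ _ _ _ _ hg (hwk.append hq) e.symm
  rw [this, List.length_append] at hw
  omega

theorem R0_wk (C : Ctx N x k l b a n f) {v : V} (h : R0 N x (Equiv.swap k l) a n v) :
    ∃ w g, w.length < n ∧ Wk N a w g ∧ g.1 = v := by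
  obtain ⟨i, g, hi, hg, hv⟩ := h
  obtain ⟨w, h1, h2, -⟩ := pos_wk C.cons C.kl C.col_a hg
  exact ⟨w, g, by omega, h2, hv⟩

theorem R0_not_sub (C : Ctx N x k l b a n f) {v : V} (h : R0 N x (Equiv.swap k l) a n v) :
    ¬ Sub N f v := by
  obtain ⟨w, g, h1, h2, rfl⟩ := C.R0_wk h
  exact C.not_sub_of_short h1 h2

theorem R0_ne (C : Ctx N x k l b a n f) {v : V} (h : R0 N x (Equiv.swap k l) a n v) :
    v ≠ f.1 := by
  rintro rfl
  exact C.R0_not_sub h (Sub.self N f)

theorem R1_wk (C : Ctx N x k l b a n f) {v : V} (h : Rs N x f l b v) :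
    ∃ u g, Wk N f ((dt x f.1 l).2 :: u) g ∧ g.1 = v :=
  Rs_wk C.cons C.bl.symm (by rw [C.col_f]; exact C.kl.symm) h

theorem R2_wk (C : Ctx N x k l b a n f) {v : V} (h : Rs N x f b k v) :
    ∃ u g, Wk N f ((dt x f.1 b).2 :: u) g ∧ g.1 = v :=
  Rs_wk C.cons C.bk (by rw [C.col_f]; exact C.bk) h

theorem R1_sub (C : Ctx N x k l b a n f) {v : V} (h : Rs N x f l b v) : Sub N f v := by
  obtain ⟨u, g, h1, h2⟩ := C.R1_wk h
  exact ⟨_, g, h1, h2⟩

theorem R2_sub (C : Ctx N x k l b a n f) {v : V} (h : Rs N x f b k v) : Sub N f v := by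
  obtain ⟨u, g, h1, h2⟩ := C.R2_wk h
  exact ⟨_, g, h1, h2⟩

theorem R1_not_R0 (C : Ctx N x k l b a n f) {v : V} (h : Rs N x f l b v) :
    ¬ R0 N x (Equiv.swap k l) a n v := fun h' => C.R0_not_sub h' (C.R1_sub h)

theorem R2_not_R0 (C : Ctx N x k l b a n f) {v : V} (h : Rs N x f b k v) :
    ¬ R0 N x (Equiv.swap k l) a n v := fun h' => C.R0_not_sub h' (C.R2_sub h)

theorem R1_ne (C : Ctx N x k l b a n f) {v : V} (h : Rs N x f l b v) : v ≠ f.1 := by
  obtain ⟨u, g, h1, rfl⟩ := C.R1_wk h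
  intro e
  exact List.cons_ne_nil _ _ (C.forest.uniq _ _ _ _ _ h1 (Wk.nil f) e)

theorem R2_ne (C : Ctx N x k l b a n f) {v : V} (h : Rs N x f b k v) : v ≠ f.1 := by
  obtain ⟨u, g, h1, rfl⟩ := C.R2_wk h
  intro e
  exact List.cons_ne_nil _ _ (C.forest.uniq _ _ _ _ _ h1 (Wk.nil f) e)

theorem R1_not_R2 (C : Ctx N x k l b a n f) {v : V} (h : Rs N x f l b v) :
    ¬ Rs N x f b k v := by
  intro h'
  obtain ⟨u, g, h1, rfl⟩ := C.R1_wk h
  obtain ⟨u', g', h1', e⟩ := C.R2_wk h'
  exact C.bl (dt_snd_inj x (C.forest.head h1' h1 e))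

theorem app (C : Ctx N x k l b a n f) (v : V) :
    phi N x (Equiv.swap k l) b a n v =
      if v = f.1 then cyc k l b * x v
      else if R0 N x (Equiv.swap k l) a n v then Equiv.swap k l * x v
      else if Rs N x f l b v then Equiv.swap l b * x v
      else if Rs N x f b k v then Equiv.swap b k * x v
      else x v :=
  phi_apply C.pos_f C.col_f (Equiv.swap_apply_left k l) v

theorem phi_f (C : Ctx N x k l b a n f) :
    phi N x (Equiv.swap k l) b a n f.1 = cyc k l b * x f.1 := by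
  rw [C.app, if_pos rfl]

theorem phi_R0 (C : Ctx N x k l b a n f) {v : V} (h : R0 N x (Equiv.swap k l) a n v) :
    phi N x (Equiv.swap k l) b a n v = Equiv.swap k l * x v := by
  rw [C.app, if_neg (C.R0_ne h), if_pos h]

theorem phi_R1 (C : Ctx N x k l b a n f) {v : V} (h : Rs N x f l b v) :
    phi N x (Equiv.swap k l) b a n v = Equiv.swap l b * x v := by
  rw [C.app, if_neg (C.R1_ne h), if_neg (C.R1_not_R0 h), if_pos h]

theorem phi_R2 (C : Ctx N x k l b a n f) {v : V} (h : Rs N x f b k v) :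
    phi N x (Equiv.swap k l) b a n v = Equiv.swap b k * x v := by
  rw [C.app, if_neg (C.R2_ne h), if_neg (C.R2_not_R0 h),
    if_neg (fun h' => C.R1_not_R2 h' h), if_pos h]

theorem phi_else (C : Ctx N x k l b a n f) {v : V} (h : v ≠ f.1)
    (h0 : ¬ R0 N x (Equiv.swap k l) a n v) (h1 : ¬ Rs N x f l b v) (h2 : ¬ Rs N x f b k v) :
    phi N x (Equiv.swap k l) b a n v = x v := by
  rw [C.app, if_neg h, if_neg h0, if_neg h1, if_neg h2]

/-! ### consistency of the exchange -/

/-- the multiplier -/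
noncomputable def th (_ : Ctx N x k l b a n f) (v : V) : Equiv.Perm (Fin d) :=
  if v = f.1 then cyc k l b
  else if R0 N x (Equiv.swap k l) a n v then Equiv.swap k l
  else if Rs N x f l b v then Equiv.swap l b
  else if Rs N x f b k v then Equiv.swap b k
  else 1

theorem phi_th (C : Ctx N x k l b a n f) (v : V) :
    phi N x (Equiv.swap k l) b a n v = C.th v * x v := by
  rw [C.app, th]
  split_ifs <;> simp

theorem col_phi (C : Ctx N x k l b a n f) (u : Dart V d) :
    col (phi N x (Equiv.swap k l) b a n) u = C.th u.1 (col x u) := by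
  simp only [col, C.phi_th, Equiv.Perm.mul_apply]

theorem th_k (C : Ctx N x k l b a n f) {v : V} (hv : v ≠ f.1) :
    C.th v k = if R0 N x (Equiv.swap k l) a n v then l
      else if Rs N x f b k v then b else k := by
  rw [th, if_neg hv]
  by_cases h0 : R0 N x (Equiv.swap k l) a n v
  · rw [if_pos h0, if_pos h0, Equiv.swap_apply_left]
  · rw [if_neg h0, if_neg h0]
    by_cases h1 : Rs N x f l b v
    · rw [if_pos h1, if_neg (C.R1_not_R2 h1),
        Equiv.swap_apply_of_ne_of_ne C.kl C.bk.symm]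
    · rw [if_neg h1]
      by_cases h2 : Rs N x f b k v
      · rw [if_pos h2, if_pos h2, Equiv.swap_apply_right]
      · rw [if_neg h2, if_neg h2, Equiv.Perm.one_apply]

theorem th_l (C : Ctx N x k l b a n f) {v : V} (hv : v ≠ f.1) :
    C.th v l = if R0 N x (Equiv.swap k l) a n v then k
      else if Rs N x f l b v then b else l := by
  rw [th, if_neg hv]
  by_cases h0 : R0 N x (Equiv.swap k l) a n v
  · rw [if_pos h0, if_pos h0, Equiv.swap_apply_right]
  · rw [if_neg h0, if_neg h0]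
    by_cases h1 : Rs N x f l b v
    · rw [if_pos h1, if_pos h1, Equiv.swap_apply_left]
    · rw [if_neg h1, if_neg h1]
      by_cases h2 : Rs N x f b k v
      · rw [if_pos h2, Equiv.swap_apply_of_ne_of_ne C.bl.symm C.kl.symm]
      · rw [if_neg h2, Equiv.Perm.one_apply]

theorem th_b (C : Ctx N x k l b a n f) {v : V} (hv : v ≠ f.1) :
    C.th v b = if Rs N x f l b v then l
      else if Rs N x f b k v then k else b := by
  rw [th, if_neg hv]
  by_cases h0 : R0 N x (Equiv.swap k l) a n v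
  · rw [if_pos h0, if_neg (fun h => C.R1_not_R0 h h0), if_neg (fun h => C.R2_not_R0 h h0),
      Equiv.swap_apply_of_ne_of_ne C.bk C.bl]
  · rw [if_neg h0]
    by_cases h1 : Rs N x f l b v
    · rw [if_pos h1, if_pos h1, Equiv.swap_apply_right]
    · rw [if_neg h1, if_neg h1]
      by_cases h2 : Rs N x f b k v
      · rw [if_pos h2, if_pos h2, Equiv.swap_apply_left]
      · rw [if_neg h2, if_neg h2, Equiv.Perm.one_apply]

theorem th_other (C : Ctx N x k l b a n f) (v : V) {c : Fin d} (h1 : c ≠ k) (h2 : c ≠ l)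
    (h3 : c ≠ b) : C.th v c = c := by
  rw [th]
  split_ifs
  · exact cyc_other h1 h2 h3
  · exact Equiv.swap_apply_of_ne_of_ne h1 h2
  · exact Equiv.swap_apply_of_ne_of_ne h2 h3
  · exact Equiv.swap_apply_of_ne_of_ne h3 h1
  · rfl

theorem th_f (C : Ctx N x k l b a n f) : C.th f.1 = cyc k l b := by rw [th, if_pos rfl]

/-- the child through colour `l` is on the first side chain -/
theorem R1_child (_ : Ctx N x k l b a n f) {c : Dart V d} (hc : N (dt x f.1 l) = some c) :
    Rs N x f l b c.1 := ⟨c, hc, 0, c, rfl, rfl⟩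

theorem R2_child (_ : Ctx N x k l b a n f) {c : Dart V d} (hc : N (dt x f.1 b) = some c) :
    Rs N x f b k c.1 := ⟨c, hc, 0, c, rfl, rfl⟩

theorem edge_f (C : Ctx N x k l b a n f) {u w : Dart V d} (huw : N u = some w)
    (hu : u.1 = f.1) : C.th u.1 (col x u) = C.th w.1 (col x u) := by
  by_cases hk : col x u = k
  · have huf : u = f := dart_eq x hu (by rw [hk, C.col_f])
    have hp := C.pos_f
    rcases Nat.eq_zero_or_pos n with h0 | hn
    · rw [h0, pos_zero, Option.some_inj] at hp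
      rw [huf, ← hp, C.Na] at huw
      cases huw
    · obtain ⟨m, hm⟩ : ∃ m, n = m + 1 := ⟨n - 1, by omega⟩
      rw [hm] at hp
      obtain ⟨g, hg, hgf⟩ := pos_succ_iff.1 hp
      have hfg := C.symm _ _ hgf
      rw [← huf, huw, Option.some_inj] at hfg
      have hw : R0 N x (Equiv.swap k l) a n w.1 :=
        ⟨m, g, by omega, hg, by rw [hfg, lv_fst]⟩
      rw [hk, hu, C.th_f, cyc_left C.kl C.bl, C.th_k (C.R0_ne hw), if_pos hw]
  by_cases hl : col x u = l
  · have hul : u = dt x f.1 l := dart_eq_dt x hu hl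
    rw [hul] at huw
    have hw := C.R1_child huw
    rw [hl, hu, C.th_f, cyc_mid, C.th_l (C.R1_ne hw), if_neg (C.R1_not_R0 hw), if_pos hw]
  by_cases hb : col x u = b
  · have hul : u = dt x f.1 b := dart_eq_dt x hu hb
    rw [hul] at huw
    have hw := C.R2_child huw
    rw [hb, hu, C.th_f, cyc_right C.bk C.bl, C.th_b (C.R2_ne hw),
      if_neg (fun h => C.R1_not_R2 h hw), if_pos hw]
  rw [C.th_other _ hk hl hb, C.th_other _ hk hl hb]

theorem R0_nb (C : Ctx N x k l b a n f) {u w : Dart V d} (huw : N u = some w)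
    (hw : w.1 ≠ f.1) (hc : col x u = k ∨ col x u = l)
    (h : R0 N x (Equiv.swap k l) a n u.1) : R0 N x (Equiv.swap k l) a n w.1 := by
  obtain ⟨i, g, hi, hg, hgu⟩ := h
  rcases chain_nb C.symm C.cons C.col_a hg huw hgu.symm hc with ⟨_, h1⟩ | ⟨_, h1⟩ |
    ⟨m, g', h0, h1, h2, _⟩
  · rcases Nat.lt_or_ge (i + 1) n with h | h
    · exact ⟨i + 1, w, h, h1, rfl⟩
    · have : i + 1 = n := by omega
      rw [this, C.pos_f, Option.some_inj] at h1
      exact (hw (by rw [h1])).elim
  · rw [h1, C.Na] at huw; cases huw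
  · exact ⟨m, g', by omega, h1, by rw [h2, lv_fst]⟩

/-- (i) consistency of the exchange -/
theorem phi_cons (C : Ctx N x k l b a n f) : Cons N (phi N x (Equiv.swap k l) b a n) := by
  intro u w huw
  have hwu := C.symm _ _ huw
  have hcol := C.cons _ _ huw
  rw [C.col_phi, C.col_phi, ← hcol]
  by_cases hu : u.1 = f.1
  · exact C.edge_f huw hu
  by_cases hw : w.1 = f.1
  · have := C.edge_f hwu hw
    rw [← hcol] at this
    exact this.symm
  have a0 := C.R0_nb huw hw
  have b0 := C.R0_nb hwu hu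
  have a1 := Rs_nb C.symm C.cons (l := l) (b := b) huw hw
  have b1 := Rs_nb C.symm C.cons (l := l) (b := b) hwu hu
  have a2 := Rs_nb C.symm C.cons (l := b) (b := k) huw hw
  have b2 := Rs_nb C.symm C.cons (l := b) (b := k) hwu hu
  rw [← hcol] at b0 b1 b2
  by_cases hk : col x u = k
  · have e0 : R0 N x (Equiv.swap k l) a n u.1 ↔ R0 N x (Equiv.swap k l) a n w.1 :=
      ⟨a0 (Or.inl hk), b0 (Or.inl hk)⟩
    have e2 : Rs N x f b k u.1 ↔ Rs N x f b k w.1 := ⟨a2 (Or.inr hk), b2 (Or.inr hk)⟩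
    rw [hk, C.th_k hu, C.th_k hw]
    simp only [e0, e2]
  by_cases hl : col x u = l
  · have e0 : R0 N x (Equiv.swap k l) a n u.1 ↔ R0 N x (Equiv.swap k l) a n w.1 :=
      ⟨a0 (Or.inr hl), b0 (Or.inr hl)⟩
    have e1 : Rs N x f l b u.1 ↔ Rs N x f l b w.1 := ⟨a1 (Or.inl hl), b1 (Or.inl hl)⟩
    rw [hl, C.th_l hu, C.th_l hw]
    simp only [e0, e1]
  by_cases hb : col x u = b
  · have e1 : Rs N x f l b u.1 ↔ Rs N x f l b w.1 := ⟨a1 (Or.inr hb), b1 (Or.inr hb)⟩
    have e2 : Rs N x f b k u.1 ↔ Rs N x f b k w.1 := ⟨a2 (Or.inl hb), b2 (Or.inl hb)⟩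
    rw [hb, C.th_b hu, C.th_b hw]
    simp only [e1, e2]
  rw [C.th_other _ hk hl hb, C.th_other _ hk hl hb]

/-! ### positions after the exchange -/

theorem phi_pos (C : Ctx N x k l b a n f) {m : ℕ} (hm : m ≤ n) :
    pos N (phi N x (Equiv.swap k l) b a n) (Equiv.swap k l) a m =
      pos N x (Equiv.swap k l) a m :=
  pos_congr fun i hi g hg => Or.inr (C.phi_R0 ⟨i, g, by omega, hg, rfl⟩)

theorem phi_pos_f (C : Ctx N x k l b a n f) :
    pos N (phi N x (Equiv.swap k l) b a n) (Equiv.swap l k) a n = some f := by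
  rw [Equiv.swap_comm l k, C.phi_pos le_rfl, C.pos_f]

theorem col_phi_f (C : Ctx N x k l b a n f) :
    col (phi N x (Equiv.swap k l) b a n) f = l := by
  rw [C.col_phi, C.th_f, C.col_f, cyc_left C.kl C.bl]

/-- colour at the origin -/
theorem col_phi_a (C : Ctx N x k l b a n f) :
    col (phi N x (Equiv.swap k l) b a n) a = Equiv.swap k l (col x a) := by
  rcases Nat.eq_zero_or_pos n with h0 | hn
  · have hp := C.pos_f
    have : a = f := by
      rw [h0, pos_zero, Option.some_inj] at hp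
      exact hp
    have h1 := C.col_phi_f
    have h2 := C.col_f
    rw [← this] at h1 h2
    rw [h1, h2, Equiv.swap_apply_left]
  · have h0 : R0 N x (Equiv.swap k l) a n a.1 := ⟨0, a, hn, rfl, rfl⟩
    simp only [col, C.phi_R0 h0, Equiv.Perm.mul_apply]

theorem dual (C : Ctx N x k l b a n f) :
    Ctx N (phi N x (Equiv.swap k l) b a n) l k b a n f where
  forest := C.forest
  Na := C.Na
  cons := C.phi_cons
  kl := C.kl.symm
  bk := C.bl
  bl := C.bk
  col_a := by
    rw [C.col_phi_a]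
    exact (sw_mem C.col_a).symm
  pos_f := C.phi_pos_f
  col_f := C.col_phi_f

theorem dt_phi_k (C : Ctx N x k l b a n f) :
    dt (phi N x (Equiv.swap k l) b a n) f.1 k = dt x f.1 b := by
  symm
  apply dart_eq_dt
  · rfl
  · rw [C.col_phi, dt_fst, col_dt, C.th_f, cyc_right C.bk C.bl]

theorem dt_phi_b (C : Ctx N x k l b a n f) :
    dt (phi N x (Equiv.swap k l) b a n) f.1 b = dt x f.1 l := by
  symm
  apply dart_eq_dt
  · rfl
  · rw [C.col_phi, dt_fst, col_dt, C.th_f, cyc_mid]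

/-- the chain on the side child is unchanged -/
theorem pos_side (C : Ctx N x k l b a n f) {c : Dart V d} (hc : N (dt x f.1 b) = some c)
    (m : ℕ) : pos N (phi N x (Equiv.swap k l) b a n) (Equiv.swap k b) c m =
      pos N x (Equiv.swap b k) c m := by
  rw [Equiv.swap_comm k b]
  exact pos_congr fun i _ g hg => Or.inr (C.phi_R2 ⟨c, hc, i, g, hg, rfl⟩)

theorem pos_main (C : Ctx N x k l b a n f) {c : Dart V d} (hc : N (dt x f.1 l) = some c)
    (m : ℕ) : pos N (phi N x (Equiv.swap k l) b a n) (Equiv.swap b l) c m =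
      pos N x (Equiv.swap l b) c m := by
  rw [Equiv.swap_comm b l]
  exact pos_congr fun i _ g hg => Or.inr (C.phi_R1 ⟨c, hc, i, g, hg, rfl⟩)

theorem dual_R0 (C : Ctx N x k l b a n f) (v : V) :
    R0 N (phi N x (Equiv.swap k l) b a n) (Equiv.swap l k) a n v ↔
      R0 N x (Equiv.swap k l) a n v := by
  rw [Equiv.swap_comm l k]
  unfold R0
  constructor
  · rintro ⟨i, g, hi, hg, hv⟩
    exact ⟨i, g, hi, by rw [← hg, C.phi_pos hi.le], hv⟩
  · rintro ⟨i, g, hi, hg, hv⟩
    exact ⟨i, g, hi, by rw [← hg, C.phi_pos hi.le], hv⟩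

theorem dual_R1 (C : Ctx N x k l b a n f) (v : V) :
    Rs N (phi N x (Equiv.swap k l) b a n) f k b v ↔ Rs N x f b k v := by
  unfold Rs onCh
  rw [C.dt_phi_k]
  constructor
  · rintro ⟨c, hc, i, g, hg, hv⟩
    exact ⟨c, hc, i, g, by rw [← hg, C.pos_side hc], hv⟩
  · rintro ⟨c, hc, i, g, hg, hv⟩
    exact ⟨c, hc, i, g, by rw [← hg, C.pos_side hc], hv⟩

theorem dual_R2 (C : Ctx N x k l b a n f) (v : V) :
    Rs N (phi N x (Equiv.swap k l) b a n) f b l v ↔ Rs N x f l b v := by
  unfold Rs onCh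
  rw [C.dt_phi_b]
  constructor
  · rintro ⟨c, hc, i, g, hg, hv⟩
    exact ⟨c, hc, i, g, by rw [← hg, C.pos_main hc], hv⟩
  · rintro ⟨c, hc, i, g, hg, hv⟩
    exact ⟨c, hc, i, g, by rw [← hg, C.pos_main hc], hv⟩

/-- (ii) the exchange is an involution -/
theorem phi_phi (C : Ctx N x k l b a n f) :
    phi N (phi N x (Equiv.swap k l) b a n) (Equiv.swap k l) b a n = x := by
  have e : Equiv.swap k l = Equiv.swap l k := Equiv.swap_comm k l
  funext v
  have key : phi N (phi N x (Equiv.swap k l) b a n) (Equiv.swap l k) b a n v = x v := by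
    by_cases h : v = f.1
    · subst h
      rw [C.dual.phi_f, C.phi_f, ← mul_assoc, cyc_mul_cyc C.kl C.bk C.bl, one_mul]
    by_cases h0 : R0 N x (Equiv.swap k l) a n v
    · rw [C.dual.phi_R0 ((C.dual_R0 v).2 h0), C.phi_R0 h0, Equiv.swap_comm l k, ← mul_assoc,
        Equiv.swap_mul_self, one_mul]
    by_cases h1 : Rs N x f l b v
    · rw [C.dual.phi_R2 ((C.dual_R2 v).2 h1), C.phi_R1 h1, Equiv.swap_comm b l, ← mul_assoc,
        Equiv.swap_mul_self, one_mul]
    by_cases h2 : Rs N x f b k v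
    · rw [C.dual.phi_R1 ((C.dual_R1 v).2 h2), C.phi_R2 h2, Equiv.swap_comm k b, ← mul_assoc,
        Equiv.swap_mul_self, one_mul]
    rw [C.dual.phi_else h (fun h' => h0 ((C.dual_R0 v).1 h')) (fun h' => h2 ((C.dual_R1 v).1 h'))
      (fun h' => h1 ((C.dual_R2 v).1 h')), C.phi_else h h0 h1 h2]
  rw [← key, ← e]

/-! ### availability at the exchange position -/

theorem own_iff (C : Ctx N x k l b a n f) (J : ℕ) :
    own J N x (Equiv.swap k l) b a n ↔
      sideOK J N x (Equiv.swap l b) (dt x f.1 l) ∧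
      sideOK J N x (Equiv.swap b k) (dt x f.1 b) := by
  unfold own
  rw [C.pos_f]
  constructor
  · rintro ⟨g, hg, h⟩
    rw [Option.some_inj] at hg
    rw [← hg, C.col_f, Equiv.swap_apply_left] at h
    exact h
  · intro h
    refine ⟨f, rfl, ?_⟩
    rw [C.col_f, Equiv.swap_apply_left]
    exact h

theorem own_phi (C : Ctx N x k l b a n f) (J : ℕ) :
    own J N (phi N x (Equiv.swap k l) b a n) (Equiv.swap k l) b a n ↔
      own J N x (Equiv.swap k l) b a n := by
  have h := C.dual.own_iff J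
  rw [Equiv.swap_comm l k] at h
  rw [h, C.own_iff J, C.dt_phi_k, C.dt_phi_b, and_comm]
  refine and_congr ?_ ?_
  · unfold sideOK
    constructor
    · intro h c hc
      rw [← C.pos_main hc]; exact h c hc
    · intro h c hc
      rw [C.pos_main hc]; exact h c hc
  · unfold sideOK
    constructor
    · intro h c hc
      rw [← C.pos_side hc]; exact h c hc
    · intro h c hc
      rw [C.pos_side hc]; exact h c hc

/-- off the subtree below `f`, the exchange is the flip of the whole chain -/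
theorem phi_off_sub (C : Ctx N x k l b a n f) {v : V} (h : ¬ Sub N f v) :
    phi N x (Equiv.swap k l) b a n v = flip N x (Equiv.swap k l) a v := by
  by_cases h0 : R0 N x (Equiv.swap k l) a n v
  · obtain ⟨i, g, -, hg, hv⟩ := id h0
    rw [C.phi_R0 h0, flip_of_on ⟨i, g, hg, hv⟩]
  · rw [C.phi_else (fun e => h (by rw [e]; exact Sub.self N f)) h0
      (fun h1 => h (C.R1_sub h1)) (fun h2 => h (C.R2_sub h2)), flip_of_not]
    rintro ⟨i, g, hg, rfl⟩
    rcases Nat.lt_or_ge i n with hi | hi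
    · exact h0 ⟨i, g, hi, hg, rfl⟩
    · obtain ⟨g', h1, h2⟩ := pos_some_of_le hi hg
      rw [C.pos_f, Option.some_inj] at h1
      subst h1
      obtain ⟨w, -, hw, -⟩ := pos_wk C.cons C.kl (Or.inl C.col_f) h2
      exact h ⟨w, g, hw, rfl⟩

end Ctx

end FI
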